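import Pool.Agent.R489.HB.Stm

/-! HB-FCG. -/

set_option autoImplicit false

namespace Pool.Agent.R115.HB

open Finset Pool.Agent.R489.HB

/-- Independence over `ZMod 2`. -/
theorem indep_iff {ι M : Type*} [DecidableEq ι] [AddCommGroup M] [Module (ZMod 2) M]
    (f : ι → M) (S : Set ι) :
    LinearIndepOn (ZMod 2) f S ↔ ∀ A : Finset ι, (A : Set ι) ⊆ S → ∑ e ∈ A, f e = 0 → A = ∅ := by
  rw [linearIndepOn_iff']
  constructor
  · intro h A hA hs
    rw [Finset.eq_empty_iff_forall_notMem]
    intro x hx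
    have := h A (fun _ => 1) hA (by simpa using hs) x hx
    exact one_ne_zero this
  · intro h t g ht hs i hi
    have h1 : ∑ e ∈ t.filter (fun e => g e ≠ 0), f e = 0 := by
      refine Eq.trans ?_ hs
      rw [Finset.sum_filter]
      apply Finset.sum_congr rfl
      intro e _
      have h2 : g e = 0 ∨ g e = 1 := by
        generalize g e = z
        revert z; decide
      rcases h2 with h2 | h2 <;> simp [h2]
    have h3 := h _ (fun x hx => ht (Finset.mem_coe.2 (Finset.mem_filter.1 hx).1)) h1
    by_contra h4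
    have : i ∈ t.filter (fun e => g e ≠ 0) := Finset.mem_filter.2 ⟨hi, h4⟩
    rw [h3] at this
    exact absurd this (Finset.notMem_empty _)

section

variable {W : Type} [DecidableEq W]

theorem mem_edg {Φ : Finset (Finset W)} {e : Finset W} :
    e ∈ edg Φ ↔ ∃ f ∈ Φ, e ⊆ f ∧ e.card = 2 := by
  simp [edg, Finset.mem_powersetCard]

theorem mem_vts {Φ : Finset (Finset W)} {x : W} : x ∈ vts Φ ↔ ∃ f ∈ Φ, x ∈ f := by
  simp [vts]

theorem edg_union (Φ1 Φ2 : Finset (Finset W)) : edg (Φ1 ∪ Φ2) = edg Φ1 ∪ edg Φ2 := by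
  ext e
  simp only [mem_edg, Finset.mem_union]
  constructor
  · rintro ⟨f, hf | hf, h⟩
    · exact Or.inl ⟨f, hf, h⟩
    · exact Or.inr ⟨f, hf, h⟩
  · rintro (⟨f, hf, h⟩ | ⟨f, hf, h⟩)
    · exact ⟨f, Or.inl hf, h⟩
    · exact ⟨f, Or.inr hf, h⟩

theorem edg_insert (Φ : Finset (Finset W)) (T : Finset W) (h : T.powersetCard 2 ⊆ edg Φ) :
    edg (insert T Φ) = edg Φ := by
  ext e
  rw [mem_edg, mem_edg]
  constructor
  · rintro ⟨f, hf, h1⟩
    rcases Finset.mem_insert.1 hf with rfl | hf
    · exact mem_edg.1 (h (Finset.mem_powersetCard.2 h1))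
    · exact ⟨f, hf, h1⟩
  · rintro ⟨f, hf, h1⟩
    exact ⟨f, Finset.mem_insert_of_mem hf, h1⟩

theorem sub_vts {Φ : Finset (Finset W)} {e : Finset W} (h : e ∈ edg Φ) : e ⊆ vts Φ := by
  obtain ⟨f, hf, h1, _⟩ := mem_edg.1 h
  exact fun x hx => mem_vts.2 ⟨f, hf, h1 hx⟩

/-- Class parity of a sum of mono edges. -/
theorem class_sum (a : W → Fin 3) (U : Finset W) (A : Finset (Finset W))
    (hU : ∀ e ∈ A, e ⊆ U) (hc : ∀ e ∈ A, e.card = 2) (hm : ∀ e ∈ A, mono a e) (i : Fin 3) :
    ∑ x ∈ U.filter (fun x => a x = i), (∑ e ∈ A, ind e) x = 0 := by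
  simp only [Finset.sum_apply]
  rw [Finset.sum_comm]
  apply Finset.sum_eq_zero
  intro e he
  obtain ⟨x, y, hxy, rfl⟩ := Finset.card_eq_two.1 (hc e he)
  have h1 : a x = a y := hm _ he x (by simp) y (by simp)
  have hx : x ∈ U := hU _ he (by simp)
  have hy : y ∈ U := hU _ he (by simp)
  have h2 : ∑ z ∈ U.filter (fun z => a z = i), ind ({x, y} : Finset W) z
      = (((U.filter (fun z => a z = i)).filter (fun z => z ∈ ({x, y} : Finset W))).card : ZMod 2) := by
    simp only [ind]
    rw [← Finset.sum_filter, Finset.sum_const, nsmul_eq_mul, mul_one]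
  rw [h2]
  by_cases h3 : a x = i
  · have h4 : (U.filter (fun z => a z = i)).filter (fun z => z ∈ ({x, y} : Finset W)) = {x, y} := by
      ext z
      simp only [Finset.mem_filter, Finset.mem_insert, Finset.mem_singleton]
      constructor
      · exact fun h => h.2
      · rintro (rfl | rfl)
        · exact ⟨⟨hx, h3⟩, Or.inl rfl⟩
        · exact ⟨⟨hy, by rw [← h1]; exact h3⟩, Or.inr rfl⟩
    rw [h4, Finset.card_pair hxy]; rfl
  · have h4 : (U.filter (fun z => a z = i)).filter (fun z => z ∈ ({x, y} : Finset W)) = ∅ := by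
      rw [Finset.eq_empty_iff_forall_notMem]
      intro z hz
      simp only [Finset.mem_filter, Finset.mem_insert, Finset.mem_singleton] at hz
      obtain ⟨⟨_, h5⟩, rfl | rfl⟩ := hz
      · exact h3 h5
      · exact h3 (by rw [h1]; exact h5)
    rw [h4]; simp

theorem FCG_back (Φ1 Φ2 : Finset (Finset W)) (T' : Finset W) (a : W → Fin 3)
    (hT : T'.card = 3) (hv : vts Φ1 ∩ vts Φ2 = T') (he : edg Φ1 ∩ edg Φ2 = T'.powersetCard 2)
    (h1 : ∀ A : Finset (Finset W), (A : Set (Finset W)) ⊆ {e | e ∈ edg Φ1 ∧ mono a e} →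
      ∑ e ∈ A, ind e = 0 → A = ∅)
    (h2 : ∀ A : Finset (Finset W), (A : Set (Finset W)) ⊆ {e | e ∈ edg Φ2 ∧ mono a e} →
      ∑ e ∈ A, ind e = 0 → A = ∅)
    (A : Finset (Finset W)) (hA : (A : Set (Finset W)) ⊆ {e | e ∈ edg Φ1 ∪ edg Φ2 ∧ mono a e})
    (hs : ∑ e ∈ A, ind e = 0) : A = ∅ := by
  set A1 := A.filter (fun e => e ∈ edg Φ1) with hA1
  set A2 := A.filter (fun e => e ∉ edg Φ1) with hA2
  have hsum : ∑ e ∈ A1, ind e + ∑ e ∈ A2, ind e = 0 := by
    rw [hA1, hA2, Finset.sum_filter_add_sum_filter_not, hs]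
  have hA1' : (A1 : Set (Finset W)) ⊆ {e | e ∈ edg Φ1 ∧ mono a e} := by
    intro e h
    have h := Finset.mem_filter.1 (Finset.mem_coe.1 h)
    exact ⟨h.2, (hA h.1).2⟩
  have hA2' : (A2 : Set (Finset W)) ⊆ {e | e ∈ edg Φ2 ∧ mono a e} := by
    intro e h
    have h := Finset.mem_filter.1 (Finset.mem_coe.1 h)
    have h3 := (hA h.1).1
    rcases Finset.mem_union.1 h3 with h4 | h4
    · exact absurd h4 h.2
    · exact ⟨h4, (hA h.1).2⟩
  obtain ⟨w, hw⟩ : ∃ w : W → ZMod 2, w = ∑ e ∈ A2, ind e := ⟨_, rfl⟩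
  have hw1 : w = ∑ e ∈ A1, ind e := by
    funext x
    have h3 := congrFun hsum x
    rw [← hw] at h3
    simp only [Pi.add_apply, Pi.zero_apply] at h3
    have h4 : ∀ p q : ZMod 2, p + q = 0 → q = p := by decide
    exact h4 _ _ h3
  have hsupp : ∀ x, x ∉ T' → w x = 0 := by
    intro x hx
    rw [← hv, Finset.mem_inter, not_and_or] at hx
    rcases hx with hx | hx
    · rw [hw1, Finset.sum_apply]
      apply Finset.sum_eq_zero
      intro e h
      have : x ∉ e := fun h5 => hx (sub_vts (hA1' (Finset.mem_coe.2 h)).1 h5)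
      simp [ind, this]
    · rw [hw, Finset.sum_apply]
      apply Finset.sum_eq_zero
      intro e h
      have : x ∉ e := fun h5 => hx (sub_vts (hA2' (Finset.mem_coe.2 h)).1 h5)
      simp [ind, this]
  have hTsub : T' ⊆ vts Φ2 := by rw [← hv]; exact Finset.inter_subset_right
  set X := T'.filter (fun x => w x ≠ 0) with hX
  have hclass : ∀ i : Fin 3, Even (X.filter (fun x => a x = i)).card := by
    intro i
    have h3 := class_sum a (vts Φ2) A2 (fun e h => sub_vts (hA2' (Finset.mem_coe.2 h)).1)
      (fun e h => by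
        obtain ⟨f, _, _, h5⟩ := mem_edg.1 (hA2' (Finset.mem_coe.2 h)).1
        exact h5) (fun e h => (hA2' (Finset.mem_coe.2 h)).2) i
    rw [← hw] at h3
    have h4 : ∑ x ∈ (vts Φ2).filter (fun x => a x = i), w x
        = ((X.filter (fun x => a x = i)).card : ZMod 2) := by
      rw [Finset.card_eq_sum_ones, Nat.cast_sum]
      symm
      have h5 : X.filter (fun x => a x = i) ⊆ (vts Φ2).filter (fun x => a x = i) := by
        intro x hx
        simp only [hX, Finset.mem_filter] at hx
        exact Finset.mem_filter.2 ⟨hTsub hx.1.1, hx.2⟩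
      rw [← Finset.sum_subset h5 (f := w)]
      · apply Finset.sum_congr rfl
        intro x hx
        simp only [hX, Finset.mem_filter] at hx
        have h6 : ∀ p : ZMod 2, p ≠ 0 → ((1:ℕ) : ZMod 2) = p := by decide
        exact h6 _ hx.1.2
      · intro x hx hx2
        by_contra h6
        apply hx2
        have h7 : x ∈ T' := by
          by_contra h8
          exact h6 (hsupp x h8)
        rw [Finset.mem_filter]
        exact ⟨Finset.mem_filter.2 ⟨h7, h6⟩, (Finset.mem_filter.1 hx).2⟩
    rw [h4] at h3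
    exact (ZMod.natCast_eq_zero_iff_even).1 h3
  have heven : Even X.card := by
    rw [Finset.card_eq_sum_card_fiberwise (f := a) (t := Finset.univ) (fun _ _ => by simp)]
    exact Finset.even_sum _ fun i _ => hclass i
  have hX3 : X.card ≤ 3 := by rw [← hT]; exact Finset.card_filter_le _ _
  have hcases : X.card = 0 ∨ X.card = 2 := by
    obtain ⟨k, hk⟩ := heven
    omega
  have hw0 : w = 0 := by
    rcases hcases with h3 | h3
    · rw [Finset.card_eq_zero] at h3
      funext x
      by_contra h4
      have h5 : x ∈ T' := by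
        by_contra h8
        exact h4 (hsupp x h8)
      have : x ∈ X := Finset.mem_filter.2 ⟨h5, h4⟩
      rw [h3] at this
      exact absurd this (Finset.notMem_empty _)
    · exfalso
      obtain ⟨s, s', hss, hXs⟩ := Finset.card_eq_two.1 h3
      have has : a s = a s' := by
        by_contra h4
        have h5 := hclass (a s)
        have h6 : X.filter (fun x => a x = a s) = {s} := by
          rw [hXs]
          ext z
          simp only [Finset.mem_filter, Finset.mem_insert, Finset.mem_singleton]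
          constructor
          · rintro ⟨rfl | rfl, h7⟩
            · rfl
            · exact absurd h7.symm h4
          · rintro rfl
            exact ⟨Or.inl rfl, rfl⟩
        rw [h6] at h5
        simp at h5
      have hsT : ({s, s'} : Finset W) ⊆ T' := by
        rw [← hXs]; exact Finset.filter_subset _ _
      have hmem : ({s, s'} : Finset W) ∈ edg Φ1 ∩ edg Φ2 := by
        rw [he]
        exact Finset.mem_powersetCard.2 ⟨hsT, Finset.card_pair hss⟩
      rw [Finset.mem_inter] at hmem
      have hmono : mono a ({s, s'} : Finset W) := by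
        intro x hx y hy
        simp only [Finset.mem_insert, Finset.mem_singleton] at hx hy
        rcases hx with rfl | rfl <;> rcases hy with rfl | rfl <;> simp [has]
      have hnot : ({s, s'} : Finset W) ∉ A2 := by
        intro h
        exact (Finset.mem_filter.1 h).2 hmem.1
      have hwi : w = ind ({s, s'} : Finset W) := by
        funext x
        by_cases h4 : x ∈ ({s, s'} : Finset W)
        · have h5 : x ∈ X := by rw [hXs]; exact h4
          have h6 := (Finset.mem_filter.1 h5).2
          have h7 : ∀ p : ZMod 2, p ≠ 0 → p = 1 := by decide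
          simp only [ind, h4, if_true]
          exact h7 _ h6
        · simp only [ind, h4, if_false]
          by_contra h5
          apply h4
          rw [← hXs]
          refine Finset.mem_filter.2 ⟨?_, h5⟩
          by_contra h8
          exact h5 (hsupp x h8)
      have h4 := h2 (insert {s, s'} A2) (by
        intro e h
        rcases Finset.mem_insert.1 (Finset.mem_coe.1 h) with rfl | h
        · exact ⟨hmem.2, hmono⟩
        · exact hA2' h) (by
        rw [Finset.sum_insert hnot, ← hw, hwi]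
        funext x
        simp only [Pi.add_apply, Pi.zero_apply]
        exact CharTwo.add_self_eq_zero _)
      exact Finset.insert_ne_empty _ _ h4
  have hA2e : A2 = ∅ := h2 A2 hA2' (by rw [← hw]; exact hw0)
  have hA1e : A1 = ∅ := h1 A1 hA1' (by rw [← hw1]; exact hw0)
  rw [Finset.eq_empty_iff_forall_notMem]
  intro e h
  by_cases h3 : e ∈ edg Φ1
  · have : e ∈ A1 := Finset.mem_filter.2 ⟨h, h3⟩
    rw [hA1e] at this
    exact absurd this (Finset.notMem_empty _)
  · have : e ∈ A2 := Finset.mem_filter.2 ⟨h, h3⟩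
    rw [hA2e] at this
    exact absurd this (Finset.notMem_empty _)

end

theorem FCG : S_FCG := by
  intro W _ Φ1 Φ2 T' a h3 hT hv he
  have hs1 : T'.powersetCard 2 ⊆ edg Φ1 := by rw [← he]; exact Finset.inter_subset_left
  have hs2 : T'.powersetCard 2 ⊆ edg Φ2 := by rw [← he]; exact Finset.inter_subset_right
  unfold FC
  rw [edg_union, edg_insert _ _ hs1, edg_insert _ _ hs2]
  constructor
  · intro h
    exact ⟨h.mono fun e h => ⟨Finset.mem_union_left _ h.1, h.2⟩,
      h.mono fun e h => ⟨Finset.mem_union_right _ h.1, h.2⟩⟩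
  · rintro ⟨h1, h2⟩
    rw [indep_iff] at h1 h2 ⊢
    exact FCG_back Φ1 Φ2 T' a hT hv he h1 h2

end Pool.Agent.R115.HB
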